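import Pool.Agent.Run7.h161.CG.Cls

/-!
# Contracting recursions and the Full Farrell–Jones Conjecture

`C` is any class of groups with the closure properties `Closed C`, all of which are known for the
class of the groups that satisfy the Full Farrell–Jones Conjecture.

Let `Γ` be a group in `C` with a contracting recursion `ψ : Γ → Γ ≀ Sym(X)`, `X` finite, such that
the elements of finite order in `Γ` which act trivially on the tree `X^*` die (for instance `Γ` torsion-free,
or every finite subgroup of `Γ` acts faithfully). Then the group `G` of the tree automorphisms given by
`Γ` is in `C`. For instance, let `f : M₁ → M` be an expanding partial self-covering of an orbispace whose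
fundamental group `Γ` is in `C`; then `G` is the iterated monodromy group of `f`. For a sub-hyperbolic
post-critically finite rational function `Γ` is virtually free or a lattice in the isometry group of the
plane. Neither the automata nor the Schreier graphs of `G` are restricted by the hypothesis: the activity
may be exponential, while the starting library treats polynomial activity and directed extensions.

Proof. Some finite symmetric self-similar set `M` contains the sections at the words of length
at least `n(γ)` of every `γ`. Let `γ` act trivially. Among `|M| + 1` consecutive sections along a long word
two are equal: a section `c` of `γ` with `c|_w = c`, `w` not empty. As `c` fixes `w`, the powers of `c` are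
sections of themselves at all words `w^i`, so they are in `M`. Hence `c` has finite order and dies. So
there is a dying section along every word of a certain length, and `γ` dies. Therefore `G` is the
directed colimit of the quotients of `Γ` by the kernels of the iterates of `ψ`, which embed in iterated
wreath products of `Γ` with finite symmetric groups (`S_LIM` of the starting library).
-/

set_option autoImplicit false

namespace Pool.Agent.Results.MP_490288_al.ContractingRecursions

open Pool.Agent.Y462.SS (Closed Wr act Dies)
open Run7.h161.CG

/-- Let `C` be a class of groups with the closure properties `Closed C`. Let `ψ` be a contracting
recursion on a group `Γ` in `C`, over a finite alphabet `X`, such that the elements of finite order which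
act trivially on the words die. Then the quotient `G` of `Γ` by the kernel of the action is in `C`. -/
theorem result (C : ∀ (G : Type) [Group G], Prop) (hC : Closed C) (X Γ G : Type) [Finite X]
    [Group Γ] [Group G] (ψ : Γ →* Wr X Γ) (hψ : Contracting ψ)
    (ht : ∀ γ : Γ, Triv ψ γ → IsOfFinOrder γ → Dies ψ γ) (hΓ : C Γ)
    (f : Γ →* G) (hf : Function.Surjective f) (hk : ∀ γ : Γ, f γ = 1 ↔ Triv ψ γ) : C G := by
  obtain ⟨M, k, hM⟩ := exists_nuc hψ
  exact closed_quot C hC ψ hΓ (dies_of_triv hM ht) G f hf hk

end Pool.Agent.Results.MP_490288_al.ContractingRecursions
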