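import Pool.Agent.Run7.h909.TT.MvA

/-!
# Groups acting on two trees

Problem `MP_490288_al`, question Q1 (does every group satisfy the Full Farrell-Jones Conjecture?).

`C` is any class of groups with the closure properties `ClosedE C` (it contains `ℤ`, is closed under
subgroups, finite products, free products, overgroups of finite index and directed colimits, and satisfies
the extension criterion) which contains the extensions of free groups of arbitrary rank by `ℤ` (`FbC C`)
and the groups acting properly and cocompactly on simply connected locally finite piecewise Euclidean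
complexes of dimension two and of nonpositive curvature (`CatC C`). All this is known for the class of the
Farrell-Jones groups (Bartels, Lück, Reich, Wegner; Bunke, Kasprowski, Winges; Bestvina, Fujiwara,
Wigglesworth and Brück, Kielak, Wu for the extensions of free groups). The groups below may have torsion.

* (1) Let `G` act on two trees. Suppose that for all vertices `x` of the first and `y` of the second tree
  there is a homomorphism from `G` to a group in `C` which is injective on the group of the elements that
  fix `x` and `y`. Then `G` is in `C`. Nothing else is assumed: the trees need not be locally finite, the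
  action on the product need not be cocompact, and the stabilizers may be arbitrarily large.
* (2) If `N` is a normal subgroup of `G`, `G / N` is in `C`, `G` acts on two trees and no nontrivial
  element of `N` fixes vertices of both trees, then `G` is in `C`. In particular all groups acting freely
  on the product of two trees are in `C`.
* (3) Let `ρ₁`, `ρ₂` be homomorphisms from `G` to `GL_2(R₁)`, `GL_2(R₂)`, where `R₁`, `R₂` are rings with
  degree functions (minus discrete valuations). Suppose that for each `n` there is a homomorphism from `G`
  to a group in `C` which does not kill any `g ≠ 1` for which the entries of `ρ₁ g`, `ρ₂ g` have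
  degrees at most `n` and the determinants have degree `0`. Then `G` is in `C`.

Suppose also that `C` contains the solvable groups.

* (4) Let `A` be a ring with two degree functions and `J` an ideal such that for every `n` some power of
  `J` has no nonzero elements whose degrees are both at most `n`. If `GL_2(A / J)` is in `C`, then
  `GL_2(A)` is in `C`.
* (5) Let `A` be a noetherian domain over a field `K` with two degree functions such that the elements
  whose degrees are both at most `n` span a finite dimensional space over `K` for every `n` (for instance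
  the ring of an affine curve with two places at infinity). If `GL_2(A / J)` is in `C` for one proper
  ideal `J`, then `GL_2(A)` is in `C`.
* (6) If `A` is an integral domain and `GL_2(A)` is in `C`, then `GL_2(A[M])` is in `C` for the monoid
  ring `A[M]` of every commutative, cancellative and torsion-free monoid `M`. So `GL_2(A[M])` is
  in `C` for `A = ℤ` and for all algebraic extensions `A` of finite fields. For instance, `GL_2` of the
  integral group rings of all torsion-free abelian groups, of `ℤ[x_1, x_1⁻¹, …, x_n, x_n⁻¹]` and of all
  rings of affine toric varieties is in `C`; by Rüping's theorem on `GL_m(ℚ)` the same holds for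
  all number fields `A`.
* (7) Let `A` be an integral domain, `f` a prime element of `A[x_i, i ∈ σ]` which is not a constant and
  `b` a point with `f(b) ≠ 0`. If `GL_2(A[1 / f(b)])` is in `C`, then `GL_2(A[x_i, i ∈ σ][1 / f])` is
  in `C`.

The theorem is due to helper909 and was handed in as `MP_98022b_gt.TwoTrees` for the L-theoretic assembly
map of torsion-free groups; the formalization is in `Run7/h909/TT`. Here it is handed in for the Full
Farrell-Jones Conjecture.

The one tree case of (1) is in the starting files (`N24.TR`), the analogues of (4) to (6) for one degree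
function are in `MP_98022b_gt.DegreeRings`. For (4), (5), (7) over algebraic extensions of finite fields there is also
`MP_b6f35e_al.TwoPlacesAtInfinity` of helper390. The group `GL_2(A[x, x⁻¹])` acts on two trees with the
stabilizers `GL_2(A[x])` and `GL_2(A[x⁻¹])`, which are neither small nor malnormal.

Outline of the proof of (1). By the extension criterion and by passing to the preimages of cyclic
subgroups one may assume that there is a homomorphism `κ` from `G` to `ℤ` which is injective on all groups
`G_x ∩ G_y` (`TT.cyc`). Subdivision makes the product of the trees a square complex with types of the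
vertices such that the link condition can be read off from the types (`TT.VH`, `TT.VH.cat`). Its
subcomplexes have the same property, so `G` is a directed colimit of groups `H` which act on simply
connected typed square complexes `X` with finitely many orbits, with the same stabilizers (`TT.colJ`).
For such `H` let `n` be divisible by all relevant finite indices and let `K` be the normal subgroup generated by
the elements with a fixed point and with `κ` divisible by `n`. Since `κ` modulo `n` separates the types
of corners, the quotient `X / K` is again a typed square complex, and it is simply connected as `K` is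
generated by elements with fixed points (`TT.vh_quot`, `TT.sc_quot`). It is locally finite, and `H / K`
acts on it properly and cocompactly. So `H / K` is in `C` by `CatC C`. The kernel of `κ` in `K` acts freely on
`X`. As `X / K` is contractible, it has a combing: one collapses it towards a vertex along the shortest
edge paths, cells being removed in pairs, and the preimage of what remains is a tree with an action
of `K` (`TT.tree_of_coc`, `TT.Dat.tree`). Hence the kernel of `κ` in `K` is free (`TT.Cc.free`), and `H` is an
extension of a subgroup of `(H / K) × ℤ` by this free group (`TT.Cc.mem`).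
-/

set_option autoImplicit false

namespace Pool.Agent.Results.MP_490288_al.TwoTrees

open Pool.Agent.Y110.FJ (ClosedE)
open Pool.Agent.R684.FP (FbC)
open Run7.h909.GT Run7.h909.TD Run7.h909.TT

/-- (1) actions on two trees -/
def Trees (C : ∀ (G : Type) [Group G], Prop) : Prop :=
  ∀ (G V₁ V₂ : Type) [Group G] [MulAction G V₁] [MulAction G V₂] (T₁ : SimpleGraph V₁)
    (T₂ : SimpleGraph V₂), T₁.IsTree → T₂.IsTree →
    (∀ (g : G) (x y : V₁), T₁.Adj x y → T₁.Adj (g • x) (g • y)) →
    (∀ (g : G) (x y : V₂), T₂.Adj x y → T₂.Adj (g • x) (g • y)) →
    (∀ (x : V₁) (y : V₂), ∃ (P : Type) (_ : Group P) (f : G →* P), C P ∧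
      ∀ g : G, g • x = x → g • y = y → f g = 1 → g = 1) → C G

/-- (2) actions on two trees, free actions of a normal subgroup on the product -/
def Extensions (C : ∀ (G : Type) [Group G], Prop) : Prop :=
  ∀ (G V₁ V₂ : Type) [Group G] [MulAction G V₁] [MulAction G V₂] (T₁ : SimpleGraph V₁)
    (T₂ : SimpleGraph V₂) (N : Subgroup G) [N.Normal], T₁.IsTree → T₂.IsTree →
    (∀ (g : G) (x y : V₁), T₁.Adj x y → T₁.Adj (g • x) (g • y)) →
    (∀ (g : G) (x y : V₂), T₂.Adj x y → T₂.Adj (g • x) (g • y)) → C (G ⧸ N) →
    (∀ g ∈ N, ∀ (x : V₁) (y : V₂), g • x = x → g • y = y → g = 1) → C G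

/-- (3) two representations over rings with a degree function -/
def Representations (C : ∀ (G : Type) [Group G], Prop) : Prop :=
  ∀ (R₁ R₂ G : Type) [CommRing R₁] [CommRing R₂] [Nontrivial R₁] [Nontrivial R₂] [Group G]
    (deg₁ : R₁ → WithBot ℤ) (deg₂ : R₂ → WithBot ℤ), IsDeg deg₁ → IsDeg deg₂ →
    ∀ (ρ₁ : G →* GL (Fin 2) R₁) (ρ₂ : G →* GL (Fin 2) R₂),
    (∀ n : ℕ, ∃ (P : Type) (_ : Group P) (f : G →* P), C P ∧ ∀ g : G,
      (∀ i j, deg₁ (ρ₁ g i j) ≤ n) → (∀ i j, deg₂ (ρ₂ g i j) ≤ n) →
      deg₁ (ρ₁ g : Matrix (Fin 2) (Fin 2) R₁).det = 0 →
      deg₂ (ρ₂ g : Matrix (Fin 2) (Fin 2) R₂).det = 0 → f g = 1 → g = 1) → C G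

/-- (4) rings with two degree functions and an ideal -/
def Ideals (C : ∀ (G : Type) [Group G], Prop) : Prop :=
  ∀ (A : Type) [CommRing A] [Nontrivial A] (deg₁ deg₂ : A → WithBot ℤ), IsDeg deg₁ →
    IsDeg deg₂ → ∀ J : Ideal A, C (GL (Fin 2) (A ⧸ J)) →
    (∀ n : ℕ, ∃ k : ℕ, ∀ x ∈ J ^ k, deg₁ x ≤ n → deg₂ x ≤ n → x = 0) → C (GL (Fin 2) A)

/-- (5) noetherian domains with two degree functions -/
def Domains (C : ∀ (G : Type) [Group G], Prop) : Prop :=
  ∀ (K A : Type) [Field K] [CommRing A] [IsDomain A] [IsNoetherianRing A] [Algebra K A]
    (deg₁ deg₂ : A → WithBot ℤ), IsDeg deg₁ → IsDeg deg₂ →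
    (∀ n : ℕ, ∃ V : Submodule K A, FiniteDimensional K V ∧
      ∀ x, deg₁ x ≤ n → deg₂ x ≤ n → x ∈ V) →
    ∀ J : Ideal A, J ≠ ⊤ → C (GL (Fin 2) (A ⧸ J)) → C (GL (Fin 2) A)

/-- (6) monoid rings of torsion-free cancellative commutative monoids -/
def MonoidRings (C : ∀ (G : Type) [Group G], Prop) : Prop :=
  ∀ (M : Type) [AddCommMonoid M] [IsCancelAdd M] [IsAddTorsionFree M],
    (∀ (A : Type) [CommRing A] [IsDomain A], C (GL (Fin 2) A) →
      C (GL (Fin 2) (AddMonoidAlgebra A M))) ∧
    C (GL (Fin 2) (AddMonoidAlgebra ℤ M)) ∧
    ∀ (K : Type) [Field K] (p : ℕ) [Fact p.Prime] [Algebra (ZMod p) K]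
      [Algebra.IsAlgebraic (ZMod p) K], C (GL (Fin 2) (AddMonoidAlgebra K M))

/-- (7) polynomial rings with the inverse of a prime element -/
def PrimeElements (C : ∀ (G : Type) [Group G], Prop) : Prop :=
  ∀ (A σ : Type) [CommRing A] [IsDomain A] (f : MvPolynomial σ A), Prime f →
    0 < f.totalDegree → ∀ b : σ → A, MvPolynomial.eval b f ≠ 0 →
    C (GL (Fin 2) (Localization.Away (MvPolynomial.eval b f))) →
    C (GL (Fin 2) (Localization.Away f))

theorem result (C : ∀ (G : Type) [Group G], Prop) (hC : ClosedE C) (hF : FbC C) (hcat : CatC C) :
    Trees C ∧ Extensions C ∧ Representations C ∧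
    ((∀ (S : Type) [Group S], Group.IsSolvable S → C S) →
      Ideals C ∧ Domains C ∧ MonoidRings C ∧ PrimeElements C) := by
  refine ⟨?_, ?_, ?_, fun hsol => ⟨?_, ?_, ?_, ?_⟩⟩
  · intro G V₁ V₂ _ _ _ T₁ T₂ h1 h2 a1 a2 h
    exact two_trees hC hF hcat h1 h2 a1 a2 h
  · intro G V₁ V₂ _ _ _ T₁ T₂ N _ h1 h2 a1 a2 hN h
    refine two_trees hC hF hcat h1 h2 a1 a2 fun x y =>
      ⟨G ⧸ N, inferInstance, QuotientGroup.mk' N, hN, fun g hx hy hg => ?_⟩
    exact h g ((QuotientGroup.eq_one_iff g).1 hg) x y hx hy
  · intro R₁ R₂ G _ _ _ _ _ deg₁ deg₂ h1 h2 ρ₁ ρ₂ h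
    exact two_rep hC hF hcat h1 h2 ρ₁ ρ₂ h
  · intro A _ _ deg₁ deg₂ h1 h2 J hJ hn
    exact two_ring hC hF hcat hsol h1 h2 J hJ hn
  · intro K A _ _ _ _ _ deg₁ deg₂ h1 h2 hfd J hJ1 hJ
    exact two_fin hC hF hcat hsol K h1 h2 hfd J hJ1 hJ
  · intro M _ _ _
    refine ⟨?_, ?_, ?_⟩
    · intro A _ _ h
      exact mon_mem hC hF hcat hsol h M
    · exact mon_mem hC hF hcat hsol (GL2Z_mem hC) M
    · intro K _ p _ _ _
      exact mon_mem hC hF hcat hsol (algfin_mem hC K p) M
  · intro A σ _ _ f hf hfd b hb0 h
    exact mv_away hC hF hcat hsol f hf hfd b hb0 h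

end Pool.Agent.Results.MP_490288_al.TwoTrees
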