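import Pool.Agent.Run7.h952.AW.Virt

/-!
# Artin groups with symmetries, virtual braid groups and virtual Artin groups

`C` is any class of groups with the closure properties `ClosedE C` (it contains `ℤ`; it is closed under
subgroups, finite direct products, free products, overgroups of finite index and directed colimits; and
it satisfies the extension criterion of the Farrell-Jones conjecture) which contains the Coxeter groups
of finite rank. All this is published for the class of the groups which satisfy the Full Farrell-Jones
Conjecture.

Let `M` be a Coxeter matrix on a set `B`, finite or infinite; the entry `0` stands for the label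
infinity. `Shephard M p` is the group with the generators `s_i`, `i ∈ B`, the braid relations of `M` and
the relations `s_i ^ p i = 1`, where the exponents are even or zero and equal for odd labels. The case
`p = 0` is the Artin group of `M`, the case `p = 2` the Coxeter group.

**Theorem.**
* (1) Let `Shephard M p` be (isomorphic to) a normal subgroup `N` of a group `G` such that conjugation by
  each element of `G` permutes the generators, up to conjugation with an element of `N`, by a symmetry of
  `(M, p)`. If `G / N` and the irreducible standard parabolic subgroups of `Shephard M p` of finite rank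
  without infinite labels are in `C`, then `G` is in `C`.
* (2) A semidirect product `Shephard M p ⋊ Q`, where `Q` acts by symmetries of `(M, p)` and inner
  automorphisms, is in `C` if and only if `Q` and these parabolic subgroups are in `C`.
* (3) If a Coxeter group of any rank is a normal subgroup `N` of `G` and `G` acts on it in this way, and
  `G / N` is in `C`, then `G` is in `C`.
* (4) Let `C` contain the Artin groups of the types `A_n` and `Ã_n` (the braid groups and the annular
  braid groups, which embed in braid groups). Let `X` be a set and let `KB X` be the group with the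
  generators `d x y`, `x ≠ y` in `X`, and the relations `d x y · d z w = d z w · d x y` for different
  `x, y, z, w` and `d x y · d y z · d x y = d y z · d x y · d y z` for different `x, y, z`. If a group `Q`
  acts on `X`, then `KB X ⋊ Q` is in `C` if and only if `Q` is in `C`.

There is no condition on the orbits of the action on the generators or on their stabilizers; `B` and the
orbits may be infinite.

Applications. The virtual braid group `VB_n` is `KB {1, …, n} ⋊ S_n` (Rabenda; Bardakov and Bellingeri), so by
(4) all virtual braid groups, and with them the pure virtual braid groups (the quasitriangular groups of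
Bartholdi, Enriquez, Etingof and Rains), satisfy the Full Farrell-Jones Conjecture; the same holds for
the infinite versions `KB X ⋊ Q` with `Q` any Farrell-Jones group which acts on a set `X`. More generally,
Bellingeri, Paris and Thiel have shown that the virtual Artin group `VA[Γ]` of a Coxeter graph `Γ` is
`KVA[Γ] ⋊ W[Γ]`, where `KVA[Γ]` is an Artin group whose generators are the (usually infinitely many) roots
of `Γ`, permuted by `W[Γ]`. By (2), `VA[Γ]` is in `C` if and only if the irreducible parabolic subgroups of
`KVA[Γ]` without infinite labels are.

Outline of the proof.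
* By the criterion `Q30.FJ.crit_loc` it suffices to embed for each `g ∈ G` and each finite subset `E` of
  `N` the group generated by `E` and `g E g⁻¹` in a group `P` in `C` such that conjugation by `g` is
  induced on `E` by an automorphism of `P` with an inner power.
* `approx` (finite approximation of an automorphism of a Coxeter matrix): let `σ` be the symmetry of `M`
  given by `g`, and let `U` be the union of the orbits of `σ` that meet a given finite set `S`. For a large
  `n` with `σ ^ n = 1` on the finite orbits in `U`, the set `T` of the orbits of `σ ^ n` on `U` becomes a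
  Coxeter matrix: the label of two elements of `T` is the label of representatives at bounded distance,
  and infinity if there are none. Then `σ` acts on `T`, labels of elements of `S` are preserved, and every
  subset of `T` without infinite labels is the isomorphic image of a subset of `U` without infinite
  labels.
* So the irreducible parabolic subgroups without infinite labels of the group `P` of `T` are such
  subgroups of `Shephard M p`, and `P` is in `C` by the reduction theorem for Artin groups of all
  labels (`Run7.h952.AR`, proved for MP_2a0850_gt). The diagram automorphism of `P` times an inner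
  automorphism has an inner power, as `T` is finite; and parabolic subgroups inject.
* (4): a finite irreducible set of pairs without infinite labels is a directed path or a directed cycle
  of length at least three (`path_or_cycle`), so the parabolic subgroups have the types `A_n` and `Ã_n`.
-/

set_option autoImplicit false

namespace Pool.Agent.Results.MP_490288_al.VirtualArtin

open Pool.Agent.Y110.FJ (ClosedE)

/-- the product `a b a ...` with `m` factors -/
def altProd {G : Type} [Monoid G] (a b : G) (m : ℕ) : G :=
  ((List.range m).map (fun k => if Even k then a else b)).prod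

/-- the braid relators of the Coxeter matrix `M` (the entry `0` stands for infinity: no relation), and
the powers of the generators with the exponents `p` (`0` stands for no relation) -/
def relators {B : Type} (M : CoxeterMatrix B) (p : B → ℕ) : Set (FreeGroup B) :=
  {r | (∃ i j : B, r = altProd (FreeGroup.of i) (FreeGroup.of j) (M i j) *
    (altProd (FreeGroup.of j) (FreeGroup.of i) (M i j))⁻¹) ∨ ∃ i : B, r = FreeGroup.of i ^ p i}

/-- the Shephard group; for `p = 0` it is the Artin group of `M` -/
abbrev Shephard {B : Type} (M : CoxeterMatrix B) (p : B → ℕ) : Type :=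
  PresentedGroup (relators M p)

/-- the generators of the Shephard group -/
def gen {B : Type} (M : CoxeterMatrix B) (p : B → ℕ) (b : B) : Shephard M p := PresentedGroup.of b

/-- the exponents are even, and equal on generators with an odd label; this holds for `p = 0` -/
structure Admissible {B : Type} (M : CoxeterMatrix B) (p : B → ℕ) : Prop where
  even : ∀ i, Even (p i)
  odd : ∀ i j, Odd (M i j) → p i = p j

/-- restriction of a Coxeter matrix along an injective map -/
def restrict {A B : Type} (M : CoxeterMatrix B) (ι : A → B) (hι : Function.Injective ι) :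
    CoxeterMatrix A where
  M := Matrix.of fun i j => M (ι i) (ι j)
  isSymm := by
    ext i j
    simp only [Matrix.transpose_apply, Matrix.of_apply]
    exact M.symmetric _ _
  diagonal i := by simp
  off_diagonal i i' h := by
    simp only [Matrix.of_apply]
    exact M.off_diagonal _ _ (fun h' => h (hι h'))

/-- The irreducible standard parabolic subgroups of finite rank without infinite labels are in `C`. -/
def ParabolicsIn (C : ∀ (G : Type) [Group G], Prop) {B : Type} (M : CoxeterMatrix B)
    (p : B → ℕ) : Prop :=
  ∀ (A : Type) [Finite A] [Nonempty A] (ι : A → B) (hι : Function.Injective ι),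
    (∀ i j, M (ι i) (ι j) ≠ 0) →
    (∀ S : Set A, S.Nonempty → Sᶜ.Nonempty → ∃ x ∈ S, ∃ y, y ∉ S ∧ M (ι x) (ι y) ≠ 2) →
    C (Shephard (restrict M ι hι) (p ∘ ι))

/-- the symmetries of a Coxeter matrix with exponents -/
def IsSymmetry {B : Type} (M : CoxeterMatrix B) (p : B → ℕ) (σ : Equiv.Perm B) : Prop :=
  (∀ x y, M (σ x) (σ y) = M x y) ∧ ∀ x, p (σ x) = p x

/-- the homomorphism `f` of groups which contain `Shephard M p` is given on this subgroup by a symmetry
of `(M, p)` and an inner automorphism; `i` is the inclusion -/
def BySymmetry {B G : Type} [Group G] (M : CoxeterMatrix B) (p : B → ℕ) (i : Shephard M p →* G)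
    (f : G →* G) : Prop :=
  ∃ (σ : Equiv.Perm B) (n : Shephard M p), IsSymmetry M p σ ∧
    ∀ b, f (i (gen M p b)) = i (n * gen M p (σ b) * n⁻¹)

/-- (1) extensions of Shephard groups -/
def Extensions (C : ∀ (G : Type) [Group G], Prop) : Prop :=
  ∀ (B : Type) (M : CoxeterMatrix B) (p : B → ℕ), Admissible M p → ParabolicsIn C M p →
    ∀ (G : Type) [Group G] (i : Shephard M p →* G) [i.range.Normal], Function.Injective i →
      (∀ g : G, BySymmetry M p i (MulAut.conj g).toMonoidHom) → C (G ⧸ i.range) → C G

/-- (2) semidirect products with Shephard groups -/
def SemidirectProducts (C : ∀ (G : Type) [Group G], Prop) : Prop :=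
  ∀ (B : Type) (M : CoxeterMatrix B) (p : B → ℕ), Admissible M p →
    ∀ (Q : Type) [Group Q] (α : Q →* MulAut (Shephard M p)),
      (∀ q : Q, BySymmetry M p (MonoidHom.id _) (α q).toMonoidHom) →
      (C (Shephard M p ⋊[α] Q) ↔ ParabolicsIn C M p ∧ C Q)

/-- (3) extensions of Coxeter groups -/
def CoxeterExtensions (C : ∀ (G : Type) [Group G], Prop) : Prop :=
  ∀ (B : Type) (M : CoxeterMatrix B) (G : Type) [Group G] (i : M.Group →* G) [i.range.Normal],
    Function.Injective i →
    (∀ g : G, ∃ (σ : Equiv.Perm B) (n : M.Group), (∀ x y, M (σ x) (σ y) = M x y) ∧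
      ∀ b, g * i (M.simple b) * g⁻¹ = i (n * M.simple (σ b) * n⁻¹)) →
    C (G ⧸ i.range) → C G

/-- the Coxeter matrix of type `Ã_{n-1}`: a cycle with `n` vertices -/
def cycle (n : ℕ) : CoxeterMatrix (Fin n) where
  M := Matrix.of fun i j : Fin n => if i = j then 1 else
    if (i : ℕ) + 1 = j ∨ (j : ℕ) + 1 = i ∨ ((i : ℕ) + 1 = n ∧ (j : ℕ) = 0) ∨
      ((j : ℕ) + 1 = n ∧ (i : ℕ) = 0) then 3 else 2
  isSymm := (Run7.h952.AW.cyc n).isSymm
  diagonal := (Run7.h952.AW.cyc n).diagonal
  off_diagonal := (Run7.h952.AW.cyc n).off_diagonal

open Classical in
/-- the Coxeter matrix on the ordered pairs `(x, y)`, `x ≠ y`: the label of `(x, y)` and `(y, z)` is three if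
`z ≠ x`, the label of two pairs without common entries is two, all other labels are infinite -/
noncomputable def pairMatrix (X : Type) : CoxeterMatrix {a : X × X // a.1 ≠ a.2} where
  M := Matrix.of fun a b => if a = b then 1 else
    if (a.1.2 = b.1.1 ∧ b.1.2 ≠ a.1.1) ∨ (b.1.2 = a.1.1 ∧ a.1.2 ≠ b.1.1) then 3 else
    if a.1.1 ≠ b.1.1 ∧ a.1.1 ≠ b.1.2 ∧ a.1.2 ≠ b.1.1 ∧ a.1.2 ≠ b.1.2 then 2 else 0
  isSymm := (Run7.h952.AW.kb X).isSymm
  diagonal := (Run7.h952.AW.kb X).diagonal
  off_diagonal := (Run7.h952.AW.kb X).off_diagonal

/-- the Artin group of `pairMatrix X`; its semidirect product with the symmetric group of `X` is the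
virtual braid group on `X` -/
abbrev KB (X : Type) : Type := Shephard (pairMatrix X) (fun _ => 0)

/-- (4) virtual braid groups on arbitrary sets -/
def VirtualBraids (C : ∀ (G : Type) [Group G], Prop) : Prop :=
  (∀ n, C (Shephard (CoxeterMatrix.A (n + 1)) (fun _ => 0))) →
  (∀ n, 2 ≤ n → C (Shephard (cycle (n + 1)) (fun _ => 0))) →
  ∀ (X Q : Type) [Group Q] [MulAction Q X] (α : Q →* MulAut (KB X)),
    (∀ (q : Q) (x y : X) (h : x ≠ y), α q (gen (pairMatrix X) (fun _ => 0) ⟨(x, y), h⟩) =
      gen (pairMatrix X) (fun _ => 0)
        ⟨(q • x, q • y), fun h' => h (MulAction.injective q h')⟩) →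
    (C (KB X ⋊[α] Q) ↔ C Q)

theorem result (C : ∀ (G : Type) [Group G], Prop) (hC : ClosedE C)
    (hcox : ∀ (S : Type) [Finite S] (A : CoxeterMatrix S), C A.Group) :
    Extensions C ∧ SemidirectProducts C ∧ CoxeterExtensions C ∧ VirtualBraids C := by
  refine ⟨fun B M p hp hpar G _ i hN hi hg hQ => ?_, fun B M p hp Q _ α hα => ?_,
    fun B M G _ i _ hi hg hQ => Run7.h952.AW.ext_cox hC hcox B M G i hi hQ hg,
    fun hA hA' X Q _ _ α hα => Run7.h952.AW.kb_semi hC hcox hA hA' X Q α hα⟩
  · have h1 : C (Shephard M p) :=
      (Run7.h952.AR.main_irr hC hcox B M p ⟨hp.even, hp.odd⟩).2 hpar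
    refine @Run7.h952.AW.ext_sh C hC hcox B M p ⟨hp.even, hp.odd⟩ h1 G _ i hi hN hQ fun g => ?_
    obtain ⟨σ, n, hσ, hn⟩ := hg g
    exact ⟨σ, n, hσ.1, hσ.2, hn⟩
  · have h1 : C (Shephard M p) ↔ ParabolicsIn C M p :=
      Run7.h952.AR.main_irr hC hcox B M p ⟨hp.even, hp.odd⟩
    rw [← h1]
    refine Run7.h952.AW.semi_sh hC hcox B M p ⟨hp.even, hp.odd⟩ Q α fun q => ?_
    obtain ⟨σ, n, hσ, hn⟩ := hα q
    exact ⟨σ, n, hσ.1, hσ.2, hn⟩

end Pool.Agent.Results.MP_490288_al.VirtualArtin
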